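import Pool.Agent.H247.VE.Stm2

/-! Disjoint neighbourhoods along a finite invariant set. -/

set_option autoImplicit false

open scoped Topology
open Filter Set Metric

universe u

namespace Pool.Agent.H14.VE.ORB

open Pool.Agent.H247.VE

theorem ev_lt {ε : ℝ} (h : 0 < ε) : ∀ᶠ r in 𝓝[>] (0 : ℝ), r < ε :=
  nhdsWithin_le_nhds (Iio_mem_nhds h)

theorem main : S_ORB.{u} := by
  intro X _ F A hA hF O hO
  have h1 : ∀ᶠ s in 𝓝[>] (0 : ℝ), ∀ y ∈ A, ∀ z ∈ A, y ≠ z → 2 * s < dist y z := by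
    rw [eventually_all_finite hA]
    intro y _
    rw [eventually_all_finite hA]
    intro z _
    by_cases hyz : y = z
    · exact Eventually.of_forall fun s h => absurd hyz h
    · filter_upwards [ev_lt (half_pos (dist_pos.2 hyz))] with s hs _
      linarith
  obtain ⟨s, hs, hs0⟩ := (h1.and self_mem_nhdsWithin).exists
  have hs0' : 0 < s := hs0
  have h2 : ∀ᶠ r in 𝓝[>] (0 : ℝ), ∀ y ∈ A, r < s ∧ ball y r ⊆ O y ∧
      ∀ w ∈ ball y r, F w ∈ ball (F y) s := by
    rw [eventually_all_finite hA]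
    intro y hy
    obtain ⟨ε, hε, h3⟩ := Metric.isOpen_iff.1 (hO y hy).1 y (hO y hy).2
    obtain ⟨δ, hδ, h4⟩ := Metric.continuous_iff.1 F.continuous y s hs0'
    filter_upwards [ev_lt hs0', ev_lt hε, ev_lt hδ] with r hr1 hr2 hr3
    refine ⟨hr1, (ball_subset_ball hr2.le).trans h3, fun w hw => ?_⟩
    exact h4 w ((mem_ball.1 hw).trans hr3)
  obtain ⟨r, hr, hr0⟩ := (h2.and self_mem_nhdsWithin).exists
  have hr0' : 0 < r := hr0
  refine ⟨fun y => ball y r, fun y hy => ⟨isOpen_ball, mem_ball_self hr0', (hr y hy).2.1⟩, ?_, ?_⟩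
  · intro y hy z hz hyz
    have h3 := hs y hy z hz hyz
    have h4 := (hr y hy).1
    exact ball_disjoint_ball (by linarith)
  · intro y hy z hz w hw hFw
    by_contra hne
    have h3 := hs z hz (F y) (hF y hy) hne
    have h4 := (hr y hy).1
    have h5 : dist (F w) (F y) < s := (hr y hy).2.2 w hw
    have h6 : dist (F w) z < r := hFw
    have h7 := dist_triangle_left z (F y) (F w)
    linarith

end Pool.Agent.H14.VE.ORB
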